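import Pool.Agent.V1195.GWProb

/-!
# MP_8be476_pr, Q1: the conjecture is false.

For the offspring law `p` uniform on `{2, 3}` and the (deterministic given the tree) conductances
`ξ(e) = 1 + (k + m - 4)/500` on the edges joining vertices of indices `k` and `m`, the covariance
`Cov(ξ_0, 𝒞(T_0^*)/𝒞(T))` is negative, hence the speed
`1 - (2/γ) E(ξ_0 𝒞(T_0^*)/𝒞(T))` is larger than the speed of the simple random walk.
-/

open MeasureTheory Filter Topology Set
open scoped ENNReal

namespace Pool.Agent.Results.MP_8be476_pr.FasterThanSRW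

open Pool.Agent.V1195.GW

/-- Law of the index configuration `κ` of the augmented Galton-Watson tree: the indices
of all vertices (words) are independent with law `p`. -/
noncomputable def AGW (p : PMF ℕ) : Measure (List ℕ → ℕ) :=
  Measure.infinitePi (fun _ : List ℕ => p.toMeasure)

/-- `Cov(ξ_0, 𝒞(T_0^*)/𝒞(T))` -/
noncomputable def covariance (p : PMF ℕ) (γ : ℕ → ℕ → ℝ) : ℝ :=
  (∫ κ, xi0 γ κ * frac γ κ ∂(AGW p)) - (∫ κ, xi0 γ κ ∂(AGW p)) * ∫ κ, frac γ κ ∂(AGW p)

/-- `γ = ∑ p_k p_m γ_{k,m}` -/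
noncomputable def meanCond (p : PMF ℕ) (γ : ℕ → ℕ → ℝ) : ℝ :=
  ∑' k, ∑' m, (p k).toReal * (p m).toReal * γ k m

/-- the speed `1 - (2/γ) E(ξ_0 𝒞(T_0^*)/𝒞(T))` of the random walk -/
noncomputable def speed (p : PMF ℕ) (γ : ℕ → ℕ → ℝ) : ℝ :=
  1 - 2 / meanCond p γ * ∫ κ, xi0 γ κ * frac γ κ ∂(AGW p)

/-- the speed `∑ p_k (k-1)/(k+1)` of the simple random walk -/
noncomputable def speedSRW (p : PMF ℕ) : ℝ := ∑' k : ℕ, (p k).toReal * (((k : ℝ) - 1) / (k + 1))

/-- the uniform law on `{2, 3}` -/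
noncomputable def law : PMF ℕ := coin.map idx

theorem law_apply (k : ℕ) : law k = if k = 2 ∨ k = 3 then 2⁻¹ else 0 := by
  unfold law coin
  rw [PMF.map_apply, tsum_fintype, Fintype.sum_bool]
  unfold idx
  by_cases h2 : k = 2
  · subst h2; simp
  · by_cases h3 : k = 3
    · subst h3; simp
    · simp [h2, h3]

theorem AGW_eq : AGW law = P.map kap := by
  have h := Measure.infinitePi_map_pi (μ := fun _ : List ℕ => coin.toMeasure)
    (f := fun _ : List ℕ => idx) (fun _ => measurable_of_countable idx)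
  have e : (fun (x : List ℕ → Bool) (i : List ℕ) => idx (x i)) = kap := rfl
  rw [e] at h
  unfold AGW P law
  rw [h]
  congr 1
  ext1 u
  exact (PMF.toMeasure_map coin (f := idx) (measurable_of_countable _)).symm

theorem integral_AGW {h : (List ℕ → ℕ) → ℝ} (hh : Measurable h) :
    ∫ κ, h κ ∂(AGW law) = ∫ ω, h (kap ω) ∂P := by
  rw [AGW_eq]
  exact integral_map measurable_kap.aemeasurable hh.aestronglyMeasurable

/-! ### exchange of the subtrees number `0` and `i` at the root -/

def tau (i : ℕ) : List ℕ → List ℕ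
  | [] => []
  | [j] => [Equiv.swap 0 i j]
  | j :: u => j :: tau i u

theorem tau_cons (i j : ℕ) (u : List ℕ) (h : u ≠ []) : tau i (j :: u) = j :: tau i u := by
  match u, h with
  | a :: b, _ => simp [tau]

theorem tau_ne (i : ℕ) (u : List ℕ) (h : u ≠ []) : tau i u ≠ [] := by
  match u, h with
  | [a], _ => simp [tau]
  | a :: b :: c, _ => simp [tau]

theorem tau_tau (i : ℕ) (u : List ℕ) : tau i (tau i u) = u := by
  induction u with
  | nil => simp [tau]
  | cons j u ih =>
    by_cases h : u = []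
    · subst h; simp [tau]
    · rw [tau_cons i j u h, tau_cons i j _ (tau_ne i u h), ih]

theorem tau_inj (i : ℕ) : Function.Injective (tau i) := Function.LeftInverse.injective (tau_tau i)

theorem branch_tau (γ : ℕ → ℕ → ℝ) (κ : List ℕ → ℕ) (i j : ℕ) :
    branch γ (fun u => κ (tau i u)) [] j = branch γ κ [] (Equiv.swap 0 i j) := by
  unfold branch
  rw [condInf_equiv γ κ (fun u => κ (tau i u)) (tau i) {u | u ≠ []} (fun u _ j => by simp)
    (fun u hu j => tau_cons i j u hu) (fun u _ => rfl) [j] (by simp)]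
  simp [tau]

theorem condRoot_tau (γ : ℕ → ℕ → ℝ) (κ : List ℕ → ℕ) (i : ℕ) (hi : i < κ [] + 1) :
    condRoot γ (fun u => κ (tau i u)) = condRoot γ κ := by
  unfold condRoot
  have e : (fun u => κ (tau i u)) [] = κ [] := by simp [tau]
  rw [e]
  refine Finset.sum_bij' (fun j _ => Equiv.swap 0 i j) (fun j _ => Equiv.swap 0 i j) ?_ ?_ ?_ ?_ ?_
  · intro j hj
    rw [Finset.mem_range] at hj ⊢
    rw [Equiv.swap_apply_def]
    split_ifs <;> omega
  · intro j hj
    rw [Finset.mem_range] at hj ⊢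
    rw [Equiv.swap_apply_def]
    split_ifs <;> omega
  · intro j _; simp
  · intro j _; simp
  · intro j _; exact branch_tau γ κ i j

theorem fr_tau (γ : ℕ → ℕ → ℝ) (κ : List ℕ → ℕ) (i : ℕ) (hi : i < κ [] + 1) :
    fr γ i (fun u => κ (tau i u)) = fr γ 0 κ := by
  unfold fr
  rw [branch_tau, condRoot_tau γ κ i hi, Equiv.swap_apply_right]

section

variable (ε : ℝ) (hε : 0 ≤ ε)

/-- indicator of the bit at the root -/
def bt (b : Bool) (ω : List ℕ → Bool) : ℝ := if ω [] = b then 1 else 0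

theorem measurable_bt (b : Bool) : Measurable (bt b) :=
  (measurable_of_countable (fun c : Bool => (if c = b then (1 : ℝ) else 0))).comp
    (measurable_pi_apply [])

theorem integral_bt (b : Bool) : ∫ ω, bt b ω ∂P = 1 / 2 := by
  have h := integral_mp (mp_flip {[]}) (measurable_bt b)
  have hi : Integrable (bt b) P := integrable_of_bdd (measurable_bt b) (C := 1)
    (fun ω => by unfold bt; split_ifs <;> simp)
  have hi2 : Integrable (fun ω => bt b (flipS {[]} ω)) P :=
    integrable_of_bdd ((measurable_bt b).comp (mp_flip {[]}).measurable) (C := 1)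
    (fun ω => by unfold bt; split_ifs <;> simp)
  have h2 : ∫ ω, (bt b ω + bt b (flipS {[]} ω)) ∂P = 1 := by
    have : (fun ω => bt b ω + bt b (flipS {[]} ω)) = fun _ => (1 : ℝ) := by
      funext ω
      unfold bt flipS
      cases h1 : ω [] <;> cases b <;> simp
    rw [this]; simp
  rw [integral_add hi hi2, h] at h2
  linarith

/-- `𝒞(T_i^*)/𝒞(T)` on the coin space -/
noncomputable def Fe (i : ℕ) (ω : List ℕ → Bool) : ℝ := fr (gam ε) i (kap ω)

theorem measurable_Fe (i : ℕ) : Measurable (Fe ε i) := (measurable_fr (gam ε) i).comp measurable_kap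

include hε

theorem fr_le_one (κ : List ℕ → ℕ) (hκ : ∀ u, κ u = 2 ∨ κ u = 3) (i : ℕ) (hi : i < κ [] + 1) :
    0 ≤ fr (gam ε) i κ ∧ fr (gam ε) i κ ≤ 1 := frac_mem κ hκ ε hε i hi

theorem integral_bt_Fe (b : Bool) :
    ((idx b : ℝ) + 1) * ∫ ω, bt b ω * Fe ε 0 ω ∂P = 1 / 2 := by
  have hm : ∀ i, Measurable (fun ω => bt b ω * Fe ε i ω) :=
    fun i => (measurable_bt b).mul (measurable_Fe ε i)
  have hb : ∀ i, i < idx b + 1 → ∀ ω, |bt b ω * Fe ε i ω| ≤ 1 := by
    intro i hi ω
    unfold bt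
    by_cases h : ω [] = b
    · rw [if_pos h, one_mul]
      have hk : kap ω [] = idx b := by unfold kap; rw [h]
      have h2 := fr_le_one ε hε (kap ω) (kap_mem ω) i (by rw [hk]; exact hi)
      unfold Fe
      rw [abs_le]; constructor <;> linarith [h2.1, h2.2]
    · rw [if_neg h, zero_mul, abs_zero]; exact zero_le_one
  have h1 : ∀ i, i < idx b + 1 → ∫ ω, bt b ω * Fe ε i ω ∂P = ∫ ω, bt b ω * Fe ε 0 ω ∂P := by
    intro i hi
    have h2 := integral_mp (mp_comp (tau_inj i)) (hm i)
    rw [← h2]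
    congr 1
    funext ω
    have e1 : bt b (fun u => ω (tau i u)) = bt b ω := by unfold bt; simp [tau]
    rw [e1]
    unfold bt
    by_cases h : ω [] = b
    · have hk : kap ω [] = idx b := by unfold kap; rw [h]
      have e2 : Fe ε i (fun u => ω (tau i u)) = Fe ε 0 ω :=
        fr_tau (gam ε) (kap ω) i (by rw [hk]; exact hi)
      rw [e2]
    · rw [if_neg h, zero_mul, zero_mul]
  have h3 : ∫ ω, ∑ i ∈ Finset.range (idx b + 1), bt b ω * Fe ε i ω ∂P = ∫ ω, bt b ω ∂P := by
    congr 1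
    funext ω
    unfold bt
    by_cases h : ω [] = b
    · rw [if_pos h]
      have hk : kap ω [] = idx b := by unfold kap; rw [h]
      have h4 := frac_sum (kap ω) (kap_mem ω) ε hε
      rw [hk] at h4
      simp only [one_mul]
      exact h4
    · rw [if_neg h]; simp
  rw [integral_finsetSum _ (fun i hi => integrable_of_bdd (hm i) (hb i (Finset.mem_range.1 hi))),
    Finset.sum_congr rfl (fun i hi => h1 i (Finset.mem_range.1 hi)), integral_bt,
    Finset.sum_const, Finset.card_range, nsmul_eq_mul] at h3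
  rw [← h3]
  push_cast
  ring

theorem integral_Fe : ∫ ω, Fe ε 0 ω ∂P = 7 / 24 := by
  have h1 := integral_bt_Fe ε hε true
  have h2 := integral_bt_Fe ε hε false
  have hm : ∀ b, Integrable (fun ω => bt b ω * Fe ε 0 ω) P := by
    intro b
    refine integrable_of_bdd ((measurable_bt b).mul (measurable_Fe ε 0)) (C := 1) ?_
    intro ω
    have h2 := fr_le_one ε hε (kap ω) (kap_mem ω) 0 (by omega)
    unfold bt Fe
    split_ifs
    · rw [one_mul, abs_le]; constructor <;> linarith [h2.1, h2.2]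
    · simp
  have e : (fun ω => Fe ε 0 ω) = fun ω => bt true ω * Fe ε 0 ω + bt false ω * Fe ε 0 ω := by
    funext ω
    unfold bt
    cases h : ω [] <;> simp
  rw [e, integral_add (hm true) (hm false)]
  have i1 : (idx true : ℝ) = 3 := by norm_num [idx]
  have i2 : (idx false : ℝ) = 2 := by norm_num [idx]
  rw [i1] at h1
  rw [i2] at h2
  linarith

omit hε in
theorem xi0_kap (ω : List ℕ → Bool) : xi0 (gam ε) (kap ω) = 1 + ε + ε * X ω := by
  unfold xi0 gam X kap idx
  rcases Bool.eq_false_or_eq_true (ω []) with h1 | h1 <;>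
    rcases Bool.eq_false_or_eq_true (ω [0]) with h2 | h2 <;> rw [h1, h2] <;> norm_num <;> ring

theorem integral_XF : ∫ ω, X ω * Fe ε 0 ω ∂P ≤ -(1 / 192) + 2 * ε := by
  have hb : ∀ ω, |X ω * Fe ε 0 ω| ≤ 1 := by
    intro ω
    rw [abs_mul]
    have h1 := abs_X_le ω
    have h2 := fr_le_one ε hε (kap ω) (kap_mem ω) 0 (by omega)
    have h4 : |Fe ε 0 ω| ≤ 1 := by
      unfold Fe; rw [abs_le]; constructor <;> linarith [h2.1, h2.2]
    calc |X ω| * |Fe ε 0 ω| ≤ 1 * 1 := mul_le_mul h1 h4 (abs_nonneg _) zero_le_one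
      _ = 1 := one_mul 1
  have hi : Integrable (fun ω => X ω * Fe ε 0 ω) P :=
    integrable_of_bdd (measurable_X.mul (measurable_Fe ε 0)) hb
  have hb0 : ∀ ω, |X ω * F0 ω| ≤ 1 := by
    intro ω
    rw [abs_mul]
    have h1 := abs_X_le ω
    have h2 := F0_mem ω
    have h4 : |F0 ω| ≤ 1 := by rw [abs_le]; constructor <;> linarith
    calc |X ω| * |F0 ω| ≤ 1 * 1 := mul_le_mul h1 h4 (abs_nonneg _) zero_le_one
      _ = 1 := one_mul 1
  have hi0 : Integrable (fun ω => X ω * F0 ω) P :=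
    integrable_of_bdd (measurable_X.mul measurable_F0) hb0
  have h1 : ∫ ω, X ω * Fe ε 0 ω ∂P ≤ ∫ ω, (X ω * F0 ω + 2 * ε) ∂P := by
    refine integral_mono hi (hi0.add (integrable_const _)) (fun ω => ?_)
    have h2 := frac_close (kap ω) (kap_mem ω) ε hε
    have h3 : |X ω * (Fe ε 0 ω - F0 ω)| ≤ 1 * (2 * ε) := by
      rw [abs_mul]
      exact mul_le_mul (abs_X_le ω) h2 (abs_nonneg _) zero_le_one
    have h4 := (abs_le.1 h3).2
    show X ω * Fe ε 0 ω ≤ X ω * F0 ω + 2 * ε
    nlinarith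
  rw [integral_add hi0 (integrable_const _)] at h1
  simp only [integral_const, probReal_univ, smul_eq_mul, one_mul] at h1
  linarith [integral_XF0]

end

noncomputable def eps : ℝ := 1 / 500

theorem integral_xi0 (ε : ℝ) : ∫ ω, xi0 (gam ε) (kap ω) ∂P = 1 + ε := by
  simp only [xi0_kap]
  have hX : Integrable X P := integrable_of_bdd measurable_X abs_X_le
  rw [integral_add (integrable_const _) (hX.const_mul ε), integral_const_mul, integral_X]
  simp

theorem integral_xi0_F (ε : ℝ) (hε : 0 ≤ ε) : ∫ ω, xi0 (gam ε) (kap ω) * Fe ε 0 ω ∂P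
    = (1 + ε) * (7 / 24) + ε * ∫ ω, X ω * Fe ε 0 ω ∂P := by
  have hF : Integrable (Fe ε 0) P := by
    refine integrable_of_bdd (measurable_Fe ε 0) (C := 1) (fun ω => ?_)
    have h2 := fr_le_one ε hε (kap ω) (kap_mem ω) 0 (by omega)
    unfold Fe
    rw [abs_le]; constructor <;> linarith [h2.1, h2.2]
  have hi : Integrable (fun ω => X ω * Fe ε 0 ω) P := by
    refine integrable_of_bdd (measurable_X.mul (measurable_Fe ε 0)) (C := 1) (fun ω => ?_)
    rw [abs_mul]
    have h1 := abs_X_le ω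
    have h2 := fr_le_one ε hε (kap ω) (kap_mem ω) 0 (by omega)
    have h4 : |Fe ε 0 ω| ≤ 1 := by
      unfold Fe; rw [abs_le]; constructor <;> linarith [h2.1, h2.2]
    calc |X ω| * |Fe ε 0 ω| ≤ 1 * 1 := mul_le_mul h1 h4 (abs_nonneg _) zero_le_one
      _ = 1 := one_mul 1
  have e : (fun ω => xi0 (gam ε) (kap ω) * Fe ε 0 ω)
      = fun ω => (1 + ε) * Fe ε 0 ω + ε * (X ω * Fe ε 0 ω) := by
    funext ω; rw [xi0_kap]; ring
  rw [e, integral_add (hF.const_mul _) (hi.const_mul _), integral_const_mul, integral_const_mul,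
    integral_Fe ε hε]

theorem tsum_law (h : ℕ → ℝ) : ∑' k, (law k).toReal * h k = (h 2 + h 3) / 2 := by
  rw [tsum_eq_sum (s := {2, 3})]
  · rw [Finset.sum_pair (by norm_num), law_apply, law_apply]
    norm_num
    ring
  · intro k hk
    rw [law_apply, if_neg (by simpa using hk)]
    simp

/-- **The conjecture of Q1 is false.**  There are an offspring law `p` with `p 0 = 0`, `p 1 < 1`
and (deterministic) conductances `γ k m > 0`, symmetric and not all equal on the support of `p`,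
such that `Cov(ξ_0, 𝒞(T_0^*)/𝒞(T)) < 0` and `1 - (2/γ) E(ξ_0 𝒞(T_0^*)/𝒞(T)) > v_SRW`. -/
theorem result : ∃ (p : PMF ℕ) (γ : ℕ → ℕ → ℝ), p 0 = 0 ∧ p 1 < 1 ∧
    (∀ k m, 0 < γ k m) ∧ (∀ k m, γ k m = γ m k) ∧
    (∃ k m, p k ≠ 0 ∧ p m ≠ 0 ∧ γ k k ≠ γ k m) ∧
    covariance p γ < 0 ∧ speedSRW p < speed p γ := by
  have hε : 0 ≤ eps := by norm_num [eps]
  have hmean : meanCond law (gam eps) = 1 + eps := by
    unfold meanCond
    have h1 : ∀ k, ∑' m, (law k).toReal * (law m).toReal * gam eps k m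
        = (law k).toReal * ((gam eps k 2 + gam eps k 3) / 2) := by
      intro k
      rw [← tsum_law (fun m => gam eps k m), ← tsum_mul_left]
      refine tsum_congr (fun m => ?_)
      ring
    simp only [h1]
    rw [tsum_law]
    unfold gam
    push_cast
    ring
  have hF : Measurable (frac (gam eps)) := measurable_fr (gam eps) 0
  have hx : Measurable (xi0 (gam eps)) := measurable_gamma (gam eps) [] [0]
  have hXF := integral_XF eps hε
  have hneg : ∫ ω, X ω * Fe eps 0 ω ∂P < 0 := by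
    have : -(1 / 192) + 2 * eps < 0 := by norm_num [eps]
    linarith
  have e1 : ∫ κ, xi0 (gam eps) κ * frac (gam eps) κ ∂(AGW law)
      = (1 + eps) * (7 / 24) + eps * ∫ ω, X ω * Fe eps 0 ω ∂P := by
    have h8 := integral_AGW (h := fun κ => xi0 (gam eps) κ * frac (gam eps) κ) (hx.mul hF)
    rw [h8, ← integral_xi0_F eps hε]
    rfl
  have e2 : ∫ κ, xi0 (gam eps) κ ∂(AGW law) = 1 + eps := by
    rw [integral_AGW hx, integral_xi0]
  have e3 : ∫ κ, frac (gam eps) κ ∂(AGW law) = 7 / 24 := by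
    rw [integral_AGW hF, ← integral_Fe eps hε]
    rfl
  have hpos : 0 < eps := by norm_num [eps]
  refine ⟨law, gam eps, ?_, ?_, ?_, ?_, ?_, ?_, ?_⟩
  · rw [law_apply]; simp
  · rw [law_apply]; simp
  · intro k m
    unfold gam eps
    have h1 : (0 : ℝ) ≤ k := Nat.cast_nonneg k
    have h2 : (0 : ℝ) ≤ m := Nat.cast_nonneg m
    linarith
  · intro k m
    unfold gam
    ring
  · refine ⟨2, 3, ?_, ?_, ?_⟩
    · rw [law_apply]; simp
    · rw [law_apply]; simp
    · unfold gam eps; norm_num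
  · unfold covariance
    rw [e1, e2, e3]
    have := mul_neg_of_pos_of_neg hpos hneg
    linarith
  · unfold speed speedSRW
    rw [e1, hmean, tsum_law]
    have h5 : 0 < 1 + eps := by linarith
    have h6 : 2 / (1 + eps) * ((1 + eps) * (7 / 24) + eps * ∫ ω, X ω * Fe eps 0 ω ∂P)
        = 7 / 12 + 2 / (1 + eps) * (eps * ∫ ω, X ω * Fe eps 0 ω ∂P) := by
      field_simp
      ring
    rw [h6]
    have h7 : 2 / (1 + eps) * (eps * ∫ ω, X ω * Fe eps 0 ω ∂P) < 0 :=
      mul_neg_of_pos_of_neg (by positivity) (mul_neg_of_pos_of_neg hpos hneg)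
    norm_num at h7 ⊢
    linarith

end Pool.Agent.Results.MP_8be476_pr.FasterThanSRW
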